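import Pool.Agent.Lib.MP_4332cb_co.Final

/-!
Complete-minor-free graphs of girth at least nine are 3-colourable with bounded clustering: the
positive answer to Q1 of MP_4332cb_co (with the constant 9 for the girth).
-/

namespace Pool.Agent.Results.MP_4332cb_co.ThreeColours

open Pool.Agent.Lib.MP_4332cb_co

universe u

/-- `G` contains the complete graph on `t` vertices as a minor: there are `t` pairwise disjoint
vertex sets (branch sets), each inducing a connected (nonempty) subgraph, any two of them being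
joined by an edge of `G`. -/
def HasCompleteMinor {V : Type u} (G : SimpleGraph V) (t : ℕ) : Prop :=
  ∃ B : Fin t → Set V, (∀ i, (G.induce (B i)).Connected) ∧
    (∀ i j, i ≠ j → Disjoint (B i) (B j)) ∧
    ∀ i j, i ≠ j → ∃ x ∈ B i, ∃ y ∈ B j, G.Adj x y

/-- `G` has a `k`-colouring (not necessarily proper) with clustering at most `c`: every connected
component of the subgraph induced by each colour class has at most `c` vertices. -/
def HasClusteredColouring {V : Type u} (G : SimpleGraph V) (k c : ℕ) : Prop :=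
  ∃ f : V → Fin k, ∀ i : Fin k, ∀ C : (G.induce {v | f v = i}).ConnectedComponent,
    C.supp.ncard ≤ c

lemma KM_iff {V : Type u} (G : SimpleGraph V) (t : ℕ) : KM G t ↔ HasCompleteMinor G t := by
  unfold KM Mn HasCompleteMinor
  constructor
  · rintro ⟨f, h1, h2, h3⟩
    exact ⟨f, fun i => (Cn_iff G _).1 (h1 i), h2, fun i j hij => h3 i j hij⟩
  · rintro ⟨f, h1, h2, h3⟩
    exact ⟨f, fun i => (Cn_iff G _).2 (h1 i), h2, fun i j hij => h3 i j hij⟩

lemma component_cn {V : Type u} (G : SimpleGraph V) (S : Set V)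
    (C : (G.induce S).ConnectedComponent) : Cn G (Subtype.val '' C.supp) := by
  have h1 : Cn (G.induce S) C.supp := by
    rw [Cn_iff]; exact C.connected_toSimpleGraph
  obtain ⟨⟨x, hx⟩, h2⟩ := h1
  refine ⟨⟨x.1, x, hx, rfl⟩, ?_⟩
  have key : ∀ a b : S, RI (G.induce S) C.supp a b → RI G (Subtype.val '' C.supp) a.1 b.1 := by
    intro a b hab
    induction hab with
    | refl => exact RI.refl _
    | tail _ h ih =>
      exact ih.trans (RI.single h.1 ⟨_, h.2.1, rfl⟩ ⟨_, h.2.2, rfl⟩)
  rintro _ ⟨a, ha, rfl⟩ _ ⟨b, hb, rfl⟩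
  exact key a b (h2 a ha b hb)

/-- For every `t`, the graphs of girth at least `9` with no `K_t`-minor are 3-colourable with
bounded clustering (the bound `c` depends only on `t`). -/
theorem result : ∀ t : ℕ, ∃ c : ℕ, ∀ (V : Type u) [Fintype V] (G : SimpleGraph V),
    (9 : ℕ∞) ≤ G.egirth → ¬ HasCompleteMinor G t → HasClusteredColouring G 3 c := by
  intro t
  refine ⟨CB t ((2 ^ (t + 1) + 1) * 2 ^ (t + 1)) * (2 ^ (t + 1) + 1), ?_⟩
  intro V _ G hg hG
  rcases Nat.eq_zero_or_pos t with rfl | ht
  · exfalso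
    exact hG ⟨fun i => i.elim0, fun i => i.elim0, fun i => i.elim0, fun i => i.elim0⟩
  · obtain ⟨f, hf⟩ := three_col ht hg (fun h => hG ((KM_iff G t).1 h))
    refine ⟨f, fun i C => ?_⟩
    have h1 := hf _ (component_cn G _ C) (by
      rintro _ ⟨a, _, rfl⟩ _ ⟨b, _, rfl⟩
      have ha : f a.1 = i := a.2
      have hb : f b.1 = i := b.2
      rw [ha, hb])
    rwa [Set.ncard_image_of_injective _ Subtype.val_injective] at h1

end Pool.Agent.Results.MP_4332cb_co.ThreeColours
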