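import Pool.Agent.Lib.MP_4332cb_co.ApexC

/-!
Three colours for girth at most six would imply two colours for a larger girth: the positive answer to
Q1 of MP_4332cb_co with the suggested constant 5 (or with 6) implies the positive answer to Q2.
-/

namespace Pool.Agent.Results.MP_4332cb_co.ThreeImpliesTwo

open Pool.Agent.Lib.MP_4332cb_co

universe u

/-- `G` contains the complete graph on `t` vertices as a minor: there are `t` pairwise disjoint
vertex sets (branch sets), each inducing a connected (nonempty) subgraph, any two of them being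
joined by an edge of `G`. -/
def HasCompleteMinor {V : Type u} (G : SimpleGraph V) (t : ℕ) : Prop :=
  ∃ B : Fin t → Set V, (∀ i, (G.induce (B i)).Connected) ∧
    (∀ i j, i ≠ j → Disjoint (B i) (B j)) ∧
    ∀ i j, i ≠ j → ∃ x ∈ B i, ∃ y ∈ B j, G.Adj x y

/-- `G` has a `k`-colouring (not necessarily proper) with clustering at most `c`: every connected
component of the subgraph induced by each colour class has at most `c` vertices. -/
def HasClusteredColouring {V : Type u} (G : SimpleGraph V) (k c : ℕ) : Prop :=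
  ∃ f : V → Fin k, ∀ i : Fin k, ∀ C : (G.induce {v | f v = i}).ConnectedComponent,
    C.supp.ncard ≤ c

/-- `g` is a constant as asked for (Q1 for `k = 3`, Q2 for `k = 2`): for every `t`, the finite
`K_t`-minor-free graphs of girth at least `g` are `k`-colourable with bounded clustering. -/
def ColourableFromGirth (k g : ℕ) : Prop :=
  ∀ t : ℕ, ∃ c : ℕ, ∀ (V : Type u) [Fintype V] (G : SimpleGraph V),
    (g : ℕ∞) ≤ G.egirth → ¬ HasCompleteMinor G t → HasClusteredColouring G k c

lemma KM_iff {V : Type u} (G : SimpleGraph V) (t : ℕ) : KM G t ↔ HasCompleteMinor G t := by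
  unfold KM Mn HasCompleteMinor
  constructor
  · rintro ⟨f, h1, h2, h3⟩
    exact ⟨f, fun i => (Cn_iff G _).1 (h1 i), h2, fun i j hij => h3 i j hij⟩
  · rintro ⟨f, h1, h2, h3⟩
    exact ⟨f, fun i => (Cn_iff G _).2 (h1 i), h2, fun i j hij => h3 i j hij⟩

lemma component_cn {V : Type u} (G : SimpleGraph V) (S : Set V)
    (C : (G.induce S).ConnectedComponent) : Cn G (Subtype.val '' C.supp) := by
  have h1 : Cn (G.induce S) C.supp := by
    rw [Cn_iff]; exact C.connected_toSimpleGraph
  obtain ⟨⟨x, hx⟩, h2⟩ := h1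
  refine ⟨⟨x.1, x, hx, rfl⟩, ?_⟩
  have key : ∀ a b : S, RI (G.induce S) C.supp a b → RI G (Subtype.val '' C.supp) a.1 b.1 := by
    intro a b hab
    induction hab with
    | refl => exact RI.refl _
    | tail _ h ih =>
      exact ih.trans (RI.single h.1 ⟨_, h.2.1, rfl⟩ ⟨_, h.2.2, rfl⟩)
  rintro _ ⟨a, ha, rfl⟩ _ ⟨b, hb, rfl⟩
  exact key a b (h2 a ha b hb)

/-- the connected sets of one colour are small -/
lemma to_cn {V : Type u} [Fintype V] {G : SimpleGraph V} {k c : ℕ} {f : V → Fin k}
    (hf : ∀ i : Fin k, ∀ C : (G.induce {v | f v = i}).ConnectedComponent, C.supp.ncard ≤ c) :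
    ∀ C, Cn G C → (∀ x ∈ C, ∀ y ∈ C, f x = f y) → C.ncard ≤ c := by
  intro C hC hmono
  obtain ⟨x0, hx0⟩ := hC.1
  set i := f x0 with hi
  have key : ∀ y, RI G C x0 y → ∃ hy : f y = i,
      (G.induce {v | f v = i}).Reachable ⟨x0, rfl⟩ ⟨y, hy⟩ := by
    intro y hy
    induction hy with
    | refl => exact ⟨rfl, SimpleGraph.Reachable.refl _⟩
    | @tail y z h1 h2 ih =>
      obtain ⟨h3, h4⟩ := ih
      have h5 : f z = i := (hmono z h2.2.2 x0 hx0)
      refine ⟨h5, h4.trans ?_⟩
      apply SimpleGraph.Adj.reachable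
      exact h2.1
  have hsub : C ⊆ Subtype.val ''
      ((G.induce {v | f v = i}).connectedComponentMk ⟨x0, rfl⟩).supp := by
    intro y hy
    obtain ⟨h3, h4⟩ := key y (hC.2 x0 hx0 y hy)
    refine ⟨⟨y, h3⟩, ?_, rfl⟩
    rw [SimpleGraph.ConnectedComponent.mem_supp_iff]
    exact (SimpleGraph.ConnectedComponent.sound h4).symm
  have h1 := Set.ncard_le_ncard hsub (Set.toFinite _)
  rw [Set.ncard_image_of_injective _ Subtype.val_injective] at h1
  exact h1.trans (hf i _)

lemma of_bool {V : Type u} {G : SimpleGraph V} {c : ℕ}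
    (h : ∃ f : V → Bool, ∀ C, Cn G C → (∀ x ∈ C, ∀ y ∈ C, f x = f y) → C.ncard ≤ c) :
    HasClusteredColouring G 2 c := by
  obtain ⟨f, hf⟩ := h
  refine ⟨fun v => if f v = true then 0 else 1, fun i C => ?_⟩
  have h1 := hf _ (component_cn G _ C) (by
    rintro _ ⟨a, _, rfl⟩ _ ⟨b, _, rfl⟩
    have ha : (if f a.1 = true then (0 : Fin 2) else 1) = i := a.2
    have hb : (if f b.1 = true then (0 : Fin 2) else 1) = i := b.2
    have hab := ha.trans hb.symm
    cases h1 : f a.1 <;> cases h2 : f b.1 <;> simp [h1, h2] at hab ⊢)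
  rwa [Set.ncard_image_of_injective _ Subtype.val_injective] at h1

/-- **Three colours imply two.** If, for some `g ≤ 6`, for every `t` the `K_t`-minor-free graphs of
girth at least `g` are 3-colourable with bounded clustering, then for every `t` the `K_t`-minor-free
graphs of girth at least `max 9 (3 * g)` are 2-colourable with bounded clustering. -/
theorem result : ∀ g : ℕ, g ≤ 6 → ColourableFromGirth.{u} 3 g →
    ColourableFromGirth.{u} 2 (max 9 (3 * g)) := by
  intro g hg6 h t
  set p := 2 ^ (t + 1) with hp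
  set k := ((p + 1) * p + 1) ^ 3 with hk
  have hk1 : 1 ≤ k := Nat.one_le_pow _ _ (by omega)
  obtain ⟨c, hc⟩ := h (t + 3 * k)
  refine ⟨max 1 c * (p + 1), ?_⟩
  intro V _ G hg hG
  rcases Nat.eq_zero_or_pos t with rfl | ht
  · exfalso
    exact hG ⟨fun i => i.elim0, fun i => i.elim0, fun i => i.elim0, fun i => i.elim0⟩
  apply of_bool
  have hg9 : (9 : ℕ∞) ≤ G.egirth := by
    refine le_trans ?_ hg
    exact_mod_cast le_max_left 9 (3 * g)
  have hg3 : ((3 * g : ℕ) : ℕ∞) ≤ G.egirth := by
    refine le_trans ?_ hg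
    exact_mod_cast le_max_right 9 (3 * g)
  refine two_red (t := t) (g := g) hp hg9 hg3 (fun h => hG ((KM_iff G t).1 h)) (le_max_left _ _) ?_
  intro U _ K hK hKg hdeg
  obtain ⟨lab, hl1, hl2, hl3⟩ := exists_lab hdeg
  obtain ⟨f, hf⟩ := hc (AV (3 * k) k (k * c + 1) U) (AG K (3 * k) (k * c + 1) lab)
    (AG_girth hg6 hKg hl1 hl2 hl3) (fun h => AG_minor ht hK ((KM_iff _ _).2 h))
  obtain ⟨f', hf'⟩ := AG_colour hk1 (to_cn hf)
  exact ⟨f', fun C hC hm => (hf' C hC hm).trans (le_max_right _ _)⟩

end Pool.Agent.Results.MP_4332cb_co.ThreeImpliesTwo
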