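import Pool.Agent.Lib.MP_4332cb_co.Tw

/-!
Graphs of bounded treewidth and girth at least seven are 2-colourable with bounded clustering:
the answer to Q2 of MP_4332cb_co for every class of bounded treewidth, with the constant 7.
-/

namespace Pool.Agent.Results.MP_4332cb_co.TwoColoursTreewidth

open Pool.Agent.Lib.MP_4332cb_co

universe u

/-- `G` has treewidth at most `w`: there are a finite tree `T` and, for every node `i` of `T`, a
finite set `bag i` of at most `w + 1` vertices of `G` such that the two ends of every edge of `G`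
lie in a common bag and, for every vertex `v`, the nodes whose bags contain `v` induce a
(nonempty) connected subgraph of `T`. -/
def HasTreewidthAtMost {V : Type u} (G : SimpleGraph V) (w : ℕ) : Prop :=
  ∃ (n : ℕ) (T : SimpleGraph (Fin n)) (bag : Fin n → Finset V), T.IsTree ∧
    (∀ i, (bag i).card ≤ w + 1) ∧
    (∀ u v, G.Adj u v → ∃ i, u ∈ bag i ∧ v ∈ bag i) ∧
    ∀ v, (T.induce {i | v ∈ bag i}).Connected

/-- `G` has a `k`-colouring (not necessarily proper) with clustering at most `c`: every connected
component of the subgraph induced by each colour class has at most `c` vertices. -/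
def HasClusteredColouring {V : Type u} (G : SimpleGraph V) (k c : ℕ) : Prop :=
  ∃ f : V → Fin k, ∀ i : Fin k, ∀ C : (G.induce {v | f v = i}).ConnectedComponent,
    C.supp.ncard ≤ c

lemma component_cn {V : Type u} (G : SimpleGraph V) (S : Set V)
    (C : (G.induce S).ConnectedComponent) : Cn G (Subtype.val '' C.supp) := by
  have h1 : Cn (G.induce S) C.supp := by
    rw [Cn_iff]; exact C.connected_toSimpleGraph
  obtain ⟨⟨x, hx⟩, h2⟩ := h1
  refine ⟨⟨x.1, x, hx, rfl⟩, ?_⟩
  have key : ∀ a b : S, RI (G.induce S) C.supp a b → RI G (Subtype.val '' C.supp) a.1 b.1 := by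
    intro a b hab
    induction hab with
    | refl => exact RI.refl _
    | tail _ h ih =>
      exact ih.trans (RI.single h.1 ⟨_, h.2.1, rfl⟩ ⟨_, h.2.2, rfl⟩)
  rintro _ ⟨a, ha, rfl⟩ _ ⟨b, hb, rfl⟩
  exact key a b (h2 a ha b hb)

/-- **Two colours for bounded treewidth.** Every finite graph of treewidth at most `w` and girth at
least `7` is 2-colourable with clustering at most `24 * (w + 2) ^ 5`. -/
theorem result : ∀ (w : ℕ) (V : Type u) [Fintype V] (G : SimpleGraph V),
    (7 : ℕ∞) ≤ G.egirth → HasTreewidthAtMost G w →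
      HasClusteredColouring G 2 (24 * (w + 2) ^ 5) := by
  intro w V _ G hg hG
  obtain ⟨n, T, bag, hT, hw, hadj, hcn⟩ := hG
  obtain ⟨f, hf⟩ := tw_two (T := T) (bag := bag) hg hT hadj (fun v => (Cn_iff T _).2 (hcn v)) hw
  refine ⟨fun v => if f v = true then 0 else 1, fun i C => ?_⟩
  have h1 := hf _ (component_cn G _ C) (by
    rintro _ ⟨a, _, rfl⟩ _ ⟨b, _, rfl⟩
    have ha : (if f a.1 = true then (0 : Fin 2) else 1) = i := a.2
    have hb : (if f b.1 = true then (0 : Fin 2) else 1) = i := b.2
    have hab := ha.trans hb.symm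
    cases h1 : f a.1 <;> cases h2 : f b.1 <;> simp [h1, h2] at hab ⊢)
  rwa [Set.ncard_image_of_injective _ Subtype.val_injective] at h1

end Pool.Agent.Results.MP_4332cb_co.TwoColoursTreewidth
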